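import Pool.Agent.Lib.MP_688fd0_co.SQ4.Iface

/-!
HEART of type C1 from WORLD and HEART for any `Up`: `U ^ (2 k) x = z ^ k x`.
-/

set_option autoImplicit false

namespace Pool.Agent.Lib.MP_688fd0_co.SQ4

open Pool.Agent.Lib.MP_688fd0_co.OSF Pool.Agent.Lib.MP_688fd0_co.SQ2 Pool.Agent.Lib.MP_688fd0_co.SQ3

namespace H31

section

variable {Q : Type} [Group Q] {B : Lb.{0, 0} Q} {a b : B.L} {eps : Q →* ℤˣ} {D : Subgroup Q} {z : Q} {k : ℕ}
  (H : HypC B a b eps D z k)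

include H

theorem C_U_one {x : Q} (h : eps x = 1) : H.up.U x = x * B.q a := if_pos h

theorem C_U_neg {x : Q} (h : eps x ≠ 1) : H.up.U x = x * (B.q b)⁻¹ := if_neg h

theorem C_up (x : Q) : H.up.up x = if eps x = 1 then a else B.inv b := rfl

theorem C_eps_w : eps (B.q a * (B.q b)⁻¹) = 1 := by rw [map_mul, map_inv, H.ea, H.eb]; decide

theorem C_eps_z : eps z = 1 := by
  have h1 : eps (z⁻¹ * (B.q a * (B.q b)⁻¹)) = 1 := H.leD H.mem
  rw [map_mul, map_inv, C_eps_w H, mul_one, inv_eq_one] at h1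
  exact h1

theorem C_w_pow : (B.q a * (B.q b)⁻¹) ^ k = z ^ k := by
  have h2 : Commute z (z⁻¹ * (B.q a * (B.q b)⁻¹)) := (H.cen _ (H.leD H.mem)).symm
  have h1 : (B.q a * (B.q b)⁻¹) ^ k = z ^ k * (z⁻¹ * (B.q a * (B.q b)⁻¹)) ^ k := by
    rw [← h2.mul_pow, mul_inv_cancel_left]
  have hf := H.fin
  have h3 : (z⁻¹ * (B.q a * (B.q b)⁻¹)) ^ k = 1 := by
    obtain ⟨q, hq⟩ := H.card
    have h4 : (⟨_, H.mem⟩ : D) ^ Nat.card D = 1 := pow_card_eq_one'
    have h5 := congrArg Subtype.val h4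
    have h6 : (z⁻¹ * (B.q a * (B.q b)⁻¹)) ^ Nat.card D = 1 := h5
    rw [hq, pow_mul, h6, one_pow]
  rw [h1, h3, mul_one]

theorem C_U_two {x : Q} (h : eps x = 1) : H.up.U (H.up.U x) = x * (B.q a * (B.q b)⁻¹) := by
  have h1 : eps (x * B.q a) ≠ 1 := by rw [map_mul, h, H.ea]; decide
  rw [C_U_one H h, C_U_neg H h1, mul_assoc]

theorem C_U_pow {x : Q} (h : eps x = 1) (n : ℕ) : (H.up.U ^ (2 * n)) x = x * (B.q a * (B.q b)⁻¹) ^ n := by
  induction n with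
  | zero => rw [mul_zero, pow_zero, pow_zero, mul_one]; rfl
  | succ n ih =>
    have h1 : eps (x * (B.q a * (B.q b)⁻¹) ^ n) = 1 := by rw [map_mul, map_pow, C_eps_w H, h, one_pow, one_mul]
    rw [show 2 * (n + 1) = 2 * n + 1 + 1 by ring, H.up.U_pow_succ', H.up.U_pow_succ', ih, C_U_two H h1, pow_succ,
      mul_assoc]

theorem C_up_z (x : Q) : H.up.up (z ^ k * x) = H.up.up x := by
  rw [C_up H, C_up H, map_mul, map_pow, C_eps_z H, one_pow, one_mul]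

theorem C_U_z (x : Q) : H.up.U (z ^ k * x) = z ^ k * H.up.U x := by
  rw [H.up.hU, H.up.hU, C_up_z H, mul_assoc]

theorem C_U_2k (x : Q) : (H.up.U ^ (2 * k)) x = z ^ k * x := by
  have key : ∀ y : Q, eps y = 1 → (H.up.U ^ (2 * k)) y = z ^ k * y := by
    intro y hy
    rw [C_U_pow H hy, C_w_pow H]
    exact ((show Commute y z from H.cen y hy).pow_right k).eq
  rcases Int.units_eq_one_or (eps x) with h | h
  · exact key x h
  · have h0 : eps x ≠ 1 := by rw [h]; decide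
    have h1 : eps (H.up.U x) = 1 := by rw [C_U_neg H h0, map_mul, map_inv, h, H.eb]; decide
    apply H.up.U.injective
    rw [C_U_z H, ← key _ h1, ← H.up.U_pow_succ', H.up.U_pow_succ]

end

theorem need_le {ρ r k c W : ℕ} (hk : 0 < k) (h : needC ρ r k c ≤ W) :
    r ^ 2 * lamC ((ρ + 2) ^ 4 * k) k c + lamC ((ρ + 2) ^ 4 * k) k c + 1 ≤ W := by
  unfold needC at h
  generalize lamC ((ρ + 2) ^ 4 * k) k c = Λ at h ⊢
  refine le_trans ?_ h
  have h1 : 1 ≤ 2 ^ r := Nat.one_le_two_pow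
  have h2 : r ^ 2 * Λ + Λ + 1 ≤ (r + 2) ^ 2 * (Λ + 4 * k) := by
    have e : (r + 2) ^ 2 * (Λ + 4 * k) = r ^ 2 * Λ + (4 * r + 4) * Λ + (r + 2) ^ 2 * (4 * k) := by ring
    rw [e]
    have h3 : 1 * Λ ≤ (4 * r + 4) * Λ := Nat.mul_le_mul_right _ (by omega)
    have h4 : 1 ≤ (r + 2) ^ 2 * (4 * k) := Nat.mul_pos (by positivity) (by omega)
    omega
  refine h2.trans ?_
  refine Nat.mul_le_mul_right _ ?_
  calc (r + 2) ^ 2 = 1 * (r + 2) ^ 2 * 1 := by ring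
    _ ≤ 100 * (r + 2) ^ 2 * 2 ^ r := Nat.mul_le_mul (Nat.mul_le_mul_right _ (by norm_num)) h1

end H31

open H31

/-- HEART of type C1. -/
theorem heartC (hW : WorldCS) (hU : HeartUS) : HeartCS := by
  classical
  intro Q _ _ B a b eps D z k H htop c W hSi hSe hLe m V hm hz hbig hkap hneed hP
  have hk : 0 < k := H.kpos
  have htot := need_le hk hneed
  have hV := hW Q B a b eps D z k H htop c W hSi hSe hLe
  generalize lamC ((Nat.card B.L + 2) ^ 4 * k) k c = Λ at htot hV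
  generalize Nat.card B.L = ρ at hP hV
  obtain ⟨d, cl, N, x, s₁, s₂, F, t₀, rk, Wd, hV⟩ := hV (by omega)
  refine hU Q B H.finL H.up (2 * k) (z ^ k) (by omega) (C_U_2k H) (C_up_z H) W ((ρ + 2) ^ 4 * k)
    ((ρ + 2) ^ 20 * k ^ 8) Λ d cl N x s₁ s₂ F t₀ rk Wd m V hm (by rw [map_pow, hz, one_pow])
    (fun p hp => (hbig p hp).2) ?_ htot ?_
  · intro p hp γ hγ
    have hq := Nat.prime_of_mem_primeFactors hp
    refine hV p ⟨hq⟩ (V.map (red (Nat.dvd_of_mem_primeFactors hp))) (hbig p hp).1 ?_ (hkap p hp) γ hγ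
    show red (Nat.dvd_of_mem_primeFactors hp) (V.chi z) = 1
    rw [hz, map_one]
  · refine lt_of_le_of_lt ?_ hP
    have e1 : (ρ + 2) ^ 20 * k ^ 8 * ((ρ + 2) ^ 4 * k * W) ^ 2 = (ρ + 2) ^ 28 * k ^ 10 * W ^ 2 := by ring
    rw [e1]
    refine Nat.mul_le_mul_right _ (Nat.mul_le_mul ?_ ?_)
    · exact Nat.pow_le_pow_right (by omega) (by omega)
    · exact Nat.pow_le_pow_right hk (by omega)

end Pool.Agent.Lib.MP_688fd0_co.SQ4
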