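import Pool.Agent.Lib.MP_688fd0_co.SQ3.H23.HeartA
import Pool.Agent.Lib.MP_688fd0_co.SQ3.H23.Select2
import Pool.Agent.Lib.MP_688fd0_co.SQ2.H80.PlaceP
import Pool.Agent.Lib.MP_688fd0_co.SQ4.Iface

/-!
HEART for any `Up` (`SQ3/H23/Heart.lean` with `U ^ K x = ζ x`).
-/

set_option autoImplicit false

namespace Pool.Agent.Lib.MP_688fd0_co.SQ4

open Pool.Agent.Lib.MP_688fd0_co.OSF Pool.Agent.Lib.MP_688fd0_co.SQ2 Pool.Agent.Lib.MP_688fd0_co.SQ3
open Finset

namespace H31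

universe u v w

section

variable {Q : Type u} [Group Q] {B : Lb.{u, v} Q} {U : Up B}

theorem lnU_zpow (l : ℤ) (y : Q) : lnU U ((U.U ^ l) y) = lnU U y :=
  Quotient.sound (Equiv.Perm.SameCycle.symm ⟨l, rfl⟩)

theorem lnU_U (y : Q) : lnU U (U.U y) = lnU U y := by
  have h := lnU_zpow (U := U) 1 y
  rwa [zpow_one] at h

theorem lnU_eq [Finite Q] {x y : Q} (h : lnU U x = lnU U y) : ∃ m : ℕ, y = (U.U ^ m) x := by
  have h1 : Equiv.Perm.SameCycle U.U x y := Quotient.exact h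
  obtain ⟨m, hm⟩ := Equiv.Perm.SameCycle.exists_nat_pow_eq h1
  exact ⟨m, hm.symm⟩

/-- A function which is constant on the lines. -/
theorem inv_gen {β : Type*} (φ : Q → β) (hφ : ∀ y, φ (U.U y) = φ y) (l : ℤ) (y : Q) : φ ((U.U ^ l) y) = φ y := by
  have h1 : ∀ (l : ℕ) (y : Q), φ ((U.U ^ l) y) = φ y := by
    intro l y
    induction l with
    | zero => rfl
    | succ l ih => rw [U.U_pow_succ', hφ, ih]
  obtain ⟨l, rfl | rfl⟩ := l.eq_nat_or_neg
  · rw [zpow_natCast]; exact h1 l y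
  · rw [← h1 l ((U.U ^ (-(l : ℤ))) y), zpow_neg, zpow_natCast]; simp

theorem nat_of {β : Type*} (φ : Q → β) (hφ : ∀ y, φ (U.U y) = φ y) (l : ℕ) (y : Q) : φ ((U.U ^ l) y) = φ y := by
  have := inv_gen (U := U) φ hφ l y
  rwa [zpow_natCast] at this

variable {K : ℕ} {ζ : Q}

theorem pow_K (hζ : ∀ x, (U.U ^ K) x = ζ * x) (l : ℕ) (y : Q) : (U.U ^ (K * l)) y = ζ ^ l * y := by
  induction l with
  | zero => rw [mul_zero, pow_zero, pow_zero, one_mul]; rfl
  | succ l ih =>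
    rw [Nat.mul_succ, U.U_pow_add, hζ, ih, pow_succ', mul_assoc]

theorem zpow_K (hζ : ∀ x, (U.U ^ K) x = ζ * x) (l : ℤ) (y : Q) : ζ ^ l * y = (U.U ^ ((K : ℤ) * l)) y := by
  obtain ⟨l, rfl | rfl⟩ := l.eq_nat_or_neg
  · rw [zpow_natCast, ← pow_K hζ, ← zpow_natCast]
    exact congrArg (fun (e : Equiv.Perm Q) => e y) (congrArg (U.U ^ ·) (by push_cast; rfl))
  · rw [mul_neg, zpow_neg, zpow_neg, eq_comm, Equiv.Perm.inv_eq_iff_eq, zpow_natCast]
    have h1 := pow_K hζ l ((ζ ^ l)⁻¹ * y)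
    rw [mul_inv_cancel_left, ← zpow_natCast, Nat.cast_mul] at h1
    exact h1.symm

theorem dvd_K (hK : 0 < K) (hζ : ∀ x, (U.U ^ K) x = ζ * x) {n : ℕ} (h : K ∣ n) (x : Q) :
    (U.U ^ n) x = ζ ^ (n / K) * x := by
  obtain ⟨q, rfl⟩ := h
  rw [Nat.mul_div_cancel_left _ hK, pow_K hζ]

theorem up_pow (hup : ∀ x, U.up (ζ * x) = U.up x) (l : ℕ) (y : Q) : U.up (ζ ^ l * y) = U.up y := by
  induction l with
  | zero => rw [pow_zero, one_mul]
  | succ l ih => rw [pow_succ', mul_assoc, hup, ih]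

theorem up_zpow (hup : ∀ x, U.up (ζ * x) = U.up x) (l : ℤ) (y : Q) : U.up (ζ ^ l * y) = U.up y := by
  obtain ⟨l, rfl | rfl⟩ := l.eq_nat_or_neg
  · rw [zpow_natCast]; exact up_pow hup l y
  · have h1 := up_pow hup l (ζ ^ (-(l : ℤ)) * y)
    rw [zpow_neg, zpow_natCast, mul_inv_cancel_left] at h1
    rw [zpow_neg, zpow_natCast, h1]

theorem U_tr (hup : ∀ x, U.up (ζ * x) = U.up x) {g : Q} (hg : g ∈ Subgroup.zpowers ζ) (y : Q) :
    U.U (g * y) = g * U.U y := by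
  obtain ⟨l, rfl⟩ := Subgroup.mem_zpowers_iff.1 hg
  rw [U.hU, U.hU, up_zpow hup, mul_assoc]

end

theorem chi_zpow {Q : Type u} [Group Q] {B : Lb.{u, v} Q} {R : Type w} [CommRing R] (V : Vd B R) {ζ : Q}
    (h : V.chi ζ = 1) (l : ℤ) : V.chi (ζ ^ l) = 1 := by
  obtain ⟨l, rfl | rfl⟩ := l.eq_nat_or_neg
  · rw [zpow_natCast, map_pow, h, one_pow]
  · have h4 : V.chi (ζ ^ (-(l : ℤ))) * V.chi (ζ ^ l) = 1 := by
      rw [← map_mul, zpow_neg, zpow_natCast, inv_mul_cancel, map_one]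
    rw [map_pow, h, one_pow, mul_one] at h4
    exact h4

end H31

open H31

/-- HEART for any `Up`. -/
theorem heartU (hBl : BlocksS) : HeartUS := by
  classical
  intro Q _ _ _ B hfinL U K ζ hK hζ hup W M M' Λ d cl N x s₁ s₂ F t₀ rk Wd m V hm hz hbig hflip htot' hP
  have hm0 : m ≠ 0 := by
    rintro rfl
    exact absurd hm (by decide)
  obtain ⟨r, hr⟩ : ∃ r, r = 2 * m.primeFactors.card := ⟨_, rfl⟩
  rw [← hr] at htot'
  have htot : r * r * Λ + Λ + 1 ≤ W := by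
    have e : r * r * Λ + Λ + 1 = r ^ 2 * Λ + Λ + 1 := by ring
    rw [e]; exact htot'
  choose E nE hnE hE using Wd.win
  -- the primes
  have hV' : ∀ q : {c : m.primeFactors × Bool // ∃ x, cl x = c.2}, ∃ (i : Fin N) (X X' : TW B) (n : ℕ), n ≤ Λ ∧
      FWin U K (F i) (t₀ i) (x i) (s₁ i) (s₂ i) X n ∧ Ver U X X' n ((U.U ^ t₀ i) (s₂ i)) ∧
      dvolw (V.map (red (Nat.dvd_of_mem_primeFactors q.1.1.2))) (wcl cl d q.1.2) X X' ≠ 0 := by
    intro q
    exact hflip q.1.1 q.1.1.2 q.1.2 q.2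
  choose iq Xq Xq' nq hnq hFq hVq hdq using hV'
  -- the slots
  let κ := ({c : m.primeFactors × Bool // ∃ x, cl x = c.2} × Fin (2 * m.primeFactors.card)) ⊕ Fin N
  let π : κ → Fin N := Sum.elim (fun p => iq p.1) id
  let X₀ : κ → TW B := Sum.elim (fun p => Xq p.1) E
  let X₀' : κ → TW B := Sum.elim (fun p => Xq' p.1) E
  let h : κ → ℕ := Sum.elim (fun p => nq p.1) nE
  have hF₀ : ∀ l : κ, FWin U K (F (π l)) (t₀ (π l)) (x (π l)) (s₁ (π l)) (s₂ (π l)) (X₀ l) (h l) := by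
    rintro (p | i)
    · exact hFq p.1
    · exact hE i
  have hV₀ : ∀ l : κ, Ver U (X₀ l) (X₀' l) (h l) ((U.U ^ t₀ (π l)) (s₂ (π l))) := by
    rintro (p | i)
    · exact hVq p.1
    · exact Ver.refl (hE i).flat
  obtain ⟨n, hn⟩ : ∃ n : Fin N → ℕ, n = fun i => ∑ l with π l = i, h l := ⟨_, rfl⟩
  have hcard : Fintype.card {c : m.primeFactors × Bool // ∃ x, cl x = c.2} ≤ r := by
    refine (Fintype.card_subtype_le _).trans ?_
    rw [Fintype.card_prod, Fintype.card_coe, Fintype.card_bool, mul_comm, hr]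
  have hn1 : ∀ i, n i + 1 ≤ W := by
    intro i
    refine le_trans ?_ htot
    have h1 : n i ≤ ∑ p : {c : m.primeFactors × Bool // ∃ x, cl x = c.2} × Fin (2 * m.primeFactors.card), nq p.1 +
        nE i := by
      rw [hn]
      show ∑ l with π l = i, h l ≤ _
      rw [Finset.sum_filter, Fintype.sum_sum_type]
      refine Nat.add_le_add ?_ ?_
      · refine Finset.sum_le_sum fun p _ => ?_
        by_cases hp : π (Sum.inl p) = i
        · rw [if_pos hp]; exact le_rfl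
        · rw [if_neg hp]; exact Nat.zero_le _
      · have h2 : ∀ i' : Fin N, (if π (Sum.inr i') = i then h (Sum.inr i') else 0) = if i' = i then nE i' else 0 :=
          fun _ => rfl
        rw [Finset.sum_congr rfl fun i' _ => h2 i', Finset.sum_ite_eq' Finset.univ i, if_pos (Finset.mem_univ _)]
    have h2 : ∑ p : {c : m.primeFactors × Bool // ∃ x, cl x = c.2} × Fin (2 * m.primeFactors.card), nq p.1 ≤
        r * r * Λ := by
      refine (Finset.sum_le_card_nsmul Finset.univ _ Λ fun p _ => hnq p.1).trans ?_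
      rw [Finset.card_univ, Fintype.card_prod, Fintype.card_fin, smul_eq_mul, ← hr]
      exact Nat.mul_le_mul_right _ (Nat.mul_le_mul_right _ hcard)
    have h3 : nE i ≤ Λ := hnE i
    omega
  -- the places
  let Gr : Fin N → Finset Q := fun i => (range (n i + 1)).biUnion fun t => im (U.U ^ (t₀ i + t)) (F i)
  have hGr : ∀ i y, y ∈ Gr i ↔ ∃ t, t ≤ n i ∧ ∃ f ∈ F i, y = (U.U ^ (t₀ i + t)) f := by
    intro i y
    show y ∈ (range (n i + 1)).biUnion _ ↔ _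
    rw [Finset.mem_biUnion]
    constructor
    · rintro ⟨t, ht, hy⟩
      rw [mem_im] at hy
      exact ⟨t, by have := Finset.mem_range.1 ht; omega, _, hy, by simp⟩
    · rintro ⟨t, ht, f, hf, rfl⟩
      exact ⟨t, Finset.mem_range.2 (by omega), map_mem_im.2 hf⟩
  have hGrc : ∀ i, (Gr i).card ≤ M * W := by
    intro i
    refine Finset.card_biUnion_le.trans ?_
    refine (Finset.sum_le_card_nsmul _ _ M ?_).trans ?_
    · intro t _
      unfold im
      rw [Finset.card_map]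
      exact Wd.fcard i
    · rw [Finset.card_range, smul_eq_mul, mul_comm]
      exact Nat.mul_le_mul_left _ (hn1 i)
  obtain ⟨w, hw, hwd⟩ := place Q ζ (Fin N) Gr (M * W) M' hGrc (by
      intro i
      obtain ⟨S, hS1, hS2⟩ := Wd.near i
      refine ⟨S, hS1, fun i' hi' y hy y' hy' l l' => ?_⟩
      rw [zpow_K hζ, zpow_K hζ]
      obtain ⟨t, -, f, hf, rfl⟩ := (hGr i y).1 hy
      obtain ⟨t', -, f', hf', rfl⟩ := (hGr i' y').1 hy'
      have h1 := hS2 i' hi' f hf f' hf' ((K : ℤ) * l + (t₀ i + t : ℕ)) ((K : ℤ) * l' + (t₀ i' + t' : ℕ))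
      rw [zpow_add, zpow_add, zpow_natCast, zpow_natCast] at h1
      exact h1) hP
  have hwl : ∀ i, ∃ l : ℤ, ∀ y, w i * y = (U.U ^ l) y := by
    intro i
    obtain ⟨l, hl⟩ := Subgroup.mem_zpowers_iff.1 (hw i)
    exact ⟨(K : ℤ) * l, fun y => by rw [← hl]; exact zpow_K hζ l y⟩
  have hwU : ∀ i y, U.U (w i * y) = w i * U.U y := fun i y => U_tr hup (hw i) y
  have hd : ∀ (l : ℤ) (y : Q), d ((U.U ^ l) y) = d y := inv_gen d Wd.d_line
  have hc : ∀ (l : ℤ) (y : Q), cl ((U.U ^ l) y) = cl y := inv_gen cl Wd.c_line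
  have hdw : ∀ i y, d (w i * y) = d y := by
    intro i y
    obtain ⟨l, hl⟩ := hwl i
    rw [hl, hd]
  have hcw : ∀ i y, cl (w i * y) = cl y := by
    intro i y
    obtain ⟨l, hl⟩ := hwl i
    rw [hl, hc]
  have hlw : ∀ i y, lnU U (w i * y) = lnU U y := by
    intro i y
    obtain ⟨l, hl⟩ := hwl i
    rw [hl, lnU_zpow]
  -- the points
  let pu₁ : Fin N → Q := fun i => w i * (U.U ^ t₀ i) (x i)
  let pu₀ : Fin N → Q := fun i => w i * (U.U ^ t₀ i) (s₁ i)
  let pxs : Fin N → Q := fun i => w i * (U.U ^ t₀ i) (s₂ i)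
  let L₀ : Fin N → Finset Q := fun i => lt (w i) (im (U.U ^ t₀ i) (F i))
  have g1 : ∀ {β : Type} (φ : Q → β), (∀ i y, φ (w i * y) = φ y) → (∀ (y : Q), φ (U.U y) = φ y) →
      ∀ i, φ (pu₁ i) = φ (x i) ∧ φ (pu₀ i) = φ (s₁ i) ∧ φ (pxs i) = φ (s₂ i) := by
    intro β φ hφw hφ i
    refine ⟨?_, ?_, ?_⟩
    · show φ (w i * (U.U ^ t₀ i) (x i)) = _
      rw [hφw, nat_of φ hφ]
    · show φ (w i * (U.U ^ t₀ i) (s₁ i)) = _
      rw [hφw, nat_of φ hφ]
    · show φ (w i * (U.U ^ t₀ i) (s₂ i)) = _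
      rw [hφw, nat_of φ hφ]
  have hTL : TreeK (lnU U) cl pu₁ pu₀ pxs rk := Wd.tree.congr (fun i => (g1 (lnU U) hlw lnU_U i).1)
    (fun i => (g1 (lnU U) hlw lnU_U i).2.1) (fun i => (g1 (lnU U) hlw lnU_U i).2.2)
    (fun i => (g1 cl hcw Wd.c_line i).1) (fun i => (g1 cl hcw Wd.c_line i).2.1)
    (fun i => (g1 cl hcw Wd.c_line i).2.2)
  have hdir : ∀ i, d (pu₀ i) = !d (pu₁ i) ∧ d (pxs i) = !d (pu₁ i) := by
    intro i
    obtain ⟨e1, e2, e3⟩ := g1 d hdw Wd.d_line i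
    rw [e1, e2, e3]
    exact ⟨Wd.d₁ i, Wd.d₂ i⟩
  have hPos : PosU U.U L₀ n pu₁ pu₀ pxs := by
    refine ⟨fun i => ?_, fun i => ?_, fun i => ?_, fun i => ?_, ?_⟩
    · have h1 : h (Sum.inr i) ≤ n i := by
        rw [hn]
        exact Finset.single_le_sum (f := h) (fun _ _ => Nat.zero_le _)
          (Finset.mem_filter.2 ⟨Finset.mem_univ (Sum.inr i), rfl⟩)
      have h2 : 0 < nE i := (hE i).flat.pos
      exact lt_of_lt_of_le h2 h1
    · exact mul_mem_lt.2 (map_mem_im.2 (Wd.fx i))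
    · exact mul_mem_lt.2 (map_mem_im.2 (Wd.f₁ i))
    · exact mul_mem_lt.2 (map_mem_im.2 (Wd.f₂ i))
    · intro i i' y y' t t' hy hy' ht ht' he
      have hy := mem_lt.1 hy
      have hy' := mem_lt.1 hy'
      rw [mem_im] at hy hy'
      obtain ⟨f, hf⟩ : ∃ f, f = (U.U ^ t₀ i)⁻¹ ((w i)⁻¹ * y) := ⟨_, rfl⟩
      obtain ⟨f', hf'⟩ : ∃ f', f' = (U.U ^ t₀ i')⁻¹ ((w i')⁻¹ * y') := ⟨_, rfl⟩
      rw [← hf] at hy
      rw [← hf'] at hy'
      have e1 : y = w i * (U.U ^ t₀ i) f := by rw [hf]; simp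
      have e2 : y' = w i' * (U.U ^ t₀ i') f' := by rw [hf']; simp
      have e3 : (U.U ^ t) y = w i * (U.U ^ (t₀ i + t)) f := by
        rw [e1, pow_tr (hwU i), U.U_pow_add]
      have e4 : (U.U ^ t') y' = w i' * (U.U ^ (t₀ i' + t')) f' := by
        rw [e2, pow_tr (hwU i'), U.U_pow_add]
      by_cases hii : i = i'
      · subst hii
        rw [e3, e4] at he
        have he := mul_left_cancel he
        have h3 : f' = (U.U ^ ((t : ℤ) - t')) f := by
          have h4 : (U.U ^ ((t : ℤ) - t')) f = (U.U ^ (t₀ i + t'))⁻¹ ((U.U ^ (t₀ i + t)) f) := by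
            rw [← Equiv.Perm.mul_apply, ← zpow_natCast, ← zpow_natCast, ← zpow_neg, ← zpow_add]
            congr 2
            push_cast
            ring
          rw [h4, he]
          simp
        have h5 := Wd.disj i f hy ((t : ℤ) - t') (by
          have := hn1 i
          rw [abs_le]; constructor <;> omega) (by rw [← h3]; exact hy')
        have h6 : t = t' := by omega
        subst h6
        have h8 : f = f' := (U.U ^ (t₀ i + t)).injective he
        refine ⟨rfl, ?_, rfl⟩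
        rw [e1, e2, h8]
      · exfalso
        refine hwd i i' hii _ ((hGr i _).2 ⟨t, ht, f, hy, rfl⟩) _ ((hGr i' _).2 ⟨t', ht', f', hy', rfl⟩) ?_
        rw [← e3, ← e4]; exact he
  have hwt : ∀ (γ : Bool) (R : Type) [CommRing R] (i : Fin N) (y : Q),
      (wcl cl d γ (w i * y) : R) = wcl cl d γ y := by
    intro γ R _ i y
    unfold wcl
    rw [hcw, hdw]
  obtain ⟨T, hT0, hT⟩ := hBl Q B U (Quotient (Equiv.Perm.SameCycle.setoid U.U)) (lnU U) d cl (Fin N) rk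
    lnU_U (fun y y' hyy => lnU_eq hyy) (fun y => Quotient.exists_rep y) Wd.d_line Wd.c_line
    κ π (fun i => ⟨Sum.inr i, rfl⟩) h (fun l => ζ ^ (h l / K))
    (fun l => (X₀ l).tr (w (π l))) (fun l => (X₀' l).tr (w (π l))) L₀ pu₀ pu₁ pxs
    (fun l => (hV₀ l).ltr (hwU (π l)))
    (fun l => ⟨congrArg (lt (w (π l))) (hF₀ l).L₀, congrArg (w (π l) * ·) (hF₀ l).u₀,
      congrArg (w (π l) * ·) (hF₀ l).u₁⟩)
    (fun l y => dvd_K hK hζ (hF₀ l).dvd y)
    (fun l y => up_pow hup _ y)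
    hdir (by rw [hn] at hPos; exact hPos) hTL
  refine select2 hm0 V cl hbig (fun q i => (Sum.inl (q, i) : κ)) (fun q i q' i' hq => by
      have h1 := Sum.inl.inj hq
      exact ⟨congrArg Prod.fst h1, congrArg Prod.snd h1⟩) T
    (fun l p hp γ => dvolw (V.map (red (Nat.dvd_of_mem_primeFactors hp))) (wcl cl d γ)
      ((X₀ l).tr (w (π l))) ((X₀' l).tr (w (π l))))
    (fun q p hp γ => dvolw (V.map (red (Nat.dvd_of_mem_primeFactors hp))) (wcl cl d γ) ((Xq q).tr (w (iq q)))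
      ((Xq' q).tr (w (iq q)))) (fun q i p hp γ => rfl) ?_ ?_
  · intro q
    have hp := q.1.1.2
    show dvolw (V.map (red (Nat.dvd_of_mem_primeFactors q.1.1.2))) (wcl cl d q.1.2) ((Xq q).tr (w (iq q)))
      ((Xq' q).tr (w (iq q))) ≠ 0
    rw [dvolw_tr _ _ _ _ _ (hwt _ _ _)]
    have h1 : (V.map (red (Nat.dvd_of_mem_primeFactors q.1.1.2))).chi (w (iq q)) = 1 := by
      obtain ⟨l, hl⟩ := Subgroup.mem_zpowers_iff.1 (hw (iq q))
      rw [← hl]
      show red (Nat.dvd_of_mem_primeFactors q.1.1.2) (V.chi (ζ ^ l)) = 1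
      rw [chi_zpow V hz, map_one]
    rw [h1, one_mul]
    exact hdq q
  · intro cc
    obtain ⟨T', hT1, hT'⟩ := hT cc
    refine ⟨T', hT1, fun p hp γ => ?_⟩
    exact hT' (ZMod p) (V.map (red (Nat.dvd_of_mem_primeFactors hp))) (fun l => by
      show red (Nat.dvd_of_mem_primeFactors hp) (V.chi (ζ ^ (h l / K))) = 1
      rw [map_pow V.chi, hz, one_pow, map_one]) γ

end Pool.Agent.Lib.MP_688fd0_co.SQ4
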